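import Mathlib

/-!
# An iterated function system on the line with an attractor with full basin, all of whose maps have
Lipschitz constant greater than one for every equivalent metric
-/

set_option autoImplicit false
open Filter Topology Set

namespace Pool.Agent.Results.MP_b8546e_an.NonContractiveLine

/-- `F(B) = ⋃_{f ∈ F} f(B)`. -/
def hut {X : Type} (F : Set (X → X)) (B : Set X) : Set X := ⋃ f ∈ F, f '' B

/-- `F` is an iterated function system: a finite nonempty set of continuous maps. -/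
def IsIFS {X : Type} [TopologicalSpace X] (F : Set (X → X)) : Prop :=
  F.Finite ∧ F.Nonempty ∧ ∀ f ∈ F, Continuous f

/-- `F^k(B) → A` in the Hausdorff metric for every nonempty compact `B ⊆ U`. -/
def Attracts {X : Type} [MetricSpace X] (F : Set (X → X)) (A U : Set X) : Prop :=
  ∀ B : Set X, IsCompact B → B.Nonempty → B ⊆ U →
    Tendsto (fun k : ℕ => Metric.hausdorffEDist ((hut F)^[k] B) A) atTop (𝓝 0)

/-- `A` is an attractor of `F`. -/
def IsAttractor {X : Type} [MetricSpace X] (F : Set (X → X)) (A : Set X) : Prop :=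
  IsCompact A ∧ A.Nonempty ∧ hut F A = A ∧ ∃ U : Set X, IsOpen U ∧ A ⊆ U ∧ Attracts F A U

/-- The basin of `A`: the union of all open sets `U ⊇ A` attracted by `A`. -/
def basin {X : Type} [MetricSpace X] (F : Set (X → X)) (A : Set X) : Set X :=
  ⋃₀ {U : Set X | IsOpen U ∧ A ⊆ U ∧ Attracts F A U}

/-- `Lip(f, d) = sup_{x ≠ y} d(f x, f y) / d(x, y) ∈ [0, ∞]`. -/
noncomputable def Lip {X : Type} (f : X → X) (d : MetricSpace X) : ENNReal :=
  ⨆ (x : X) (y : X) (_ : x ≠ y), ENNReal.ofReal (d.dist (f x) (f y) / d.dist x y)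

/-! ### The maps -/

/-- the bump -/
noncomputable def psi (t : ℝ) : ℝ := max 0 (min t (1 / 50 - t)) + min 0 (max t (-(1 / 50) - t))

theorem psi_near (t : ℝ) (h1 : -(1 / 100) ≤ t) (h2 : t ≤ 1 / 100) : psi t = t := by
  unfold psi
  simp only [max_def, min_def]
  split_ifs <;> linarith

theorem psi_far (t : ℝ) (h : t ≤ -(1 / 50) ∨ 1 / 50 ≤ t) : psi t = 0 := by
  unfold psi
  simp only [max_def, min_def]
  rcases h with h | h <;> split_ifs <;> linarith

theorem psi_le (t : ℝ) : psi t ≤ 1 / 100 := by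
  unfold psi
  simp only [max_def, min_def]
  split_ifs <;> linarith

theorem le_psi (t : ℝ) : -(1 / 100) ≤ psi t := by
  unfold psi
  simp only [max_def, min_def]
  split_ifs <;> linarith

theorem continuous_psi : Continuous psi := by
  unfold psi
  fun_prop

/-- the perturbed affine map -/
noncomputable def h (x : ℝ) : ℝ := 2 / 3 * (1 - x) - 1 / 2 * psi (x - 2 / 5)

/-- the clamp -/
noncomputable def p (x : ℝ) : ℝ := max 0 (min 1 x)

theorem p_mem (x : ℝ) : 0 ≤ p x ∧ p x ≤ 1 := by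
  unfold p
  constructor
  · exact le_max_left _ _
  · exact max_le (by norm_num) (min_le_left _ _)

theorem p_eq (x : ℝ) (h0 : 0 ≤ x) (h1 : x ≤ 1) : p x = x := by
  unfold p
  rw [min_eq_right h1, max_eq_right h0]

theorem continuous_p : Continuous p := by unfold p; fun_prop

theorem continuous_h : Continuous h := by
  unfold h
  exact ((continuous_const.mul (continuous_const.sub continuous_id))).sub
    (continuous_const.mul (continuous_psi.comp (continuous_id.sub continuous_const)))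

theorem h_mem (x : ℝ) (h0 : 0 ≤ x) (h1 : x ≤ 1) : 0 ≤ h x ∧ h x ≤ 2 / 3 := by
  unfold h
  by_cases hx : x - 2 / 5 ≤ -(1 / 50) ∨ 1 / 50 ≤ x - 2 / 5
  · rw [psi_far _ hx]
    constructor <;> linarith
  · push Not at hx
    have e1 := psi_le (x - 2 / 5)
    have e2 := le_psi (x - 2 / 5)
    constructor <;> linarith [hx.1, hx.2]

/-- first map -/
noncomputable def f1 (x : ℝ) : ℝ := h (p x)

/-- second map -/
noncomputable def f2 (x : ℝ) : ℝ := 1 - h (1 - p x)

theorem f1_mem (x : ℝ) : 0 ≤ f1 x ∧ f1 x ≤ 2 / 3 := h_mem _ (p_mem x).1 (p_mem x).2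

theorem f2_mem (x : ℝ) : 1 / 3 ≤ f2 x ∧ f2 x ≤ 1 := by
  have := h_mem (1 - p x) (by linarith [(p_mem x).2]) (by linarith [(p_mem x).1])
  unfold f2
  constructor <;> linarith

theorem continuous_f1 : Continuous f1 := continuous_h.comp continuous_p

theorem continuous_f2 : Continuous f2 :=
  continuous_const.sub (continuous_h.comp (continuous_const.sub continuous_p))

theorem f1_ne_f2 : f1 ≠ f2 := by
  intro hcon
  have h0 := congrFun hcon 1
  have e1 : f1 1 = 0 := by
    unfold f1 h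
    rw [p_eq 1 (by norm_num) le_rfl, psi_far _ (by right; norm_num)]
    norm_num
  have := (f2_mem 1).1
  rw [e1] at h0
  linarith

/-- contraction estimate relative to a point far from the bump -/
theorem h_contr (w b : ℝ) (hw : w - 2 / 5 ≤ -(1 / 10) ∨ 1 / 10 ≤ w - 2 / 5) :
    |h w - h b| ≤ 4 / 5 * |w - b| := by
  have hw' : psi (w - 2 / 5) = 0 := psi_far _ (by rcases hw with h | h; left; linarith; right; linarith)
  unfold h
  rw [hw']
  by_cases hb : b - 2 / 5 ≤ -(1 / 50) ∨ 1 / 50 ≤ b - 2 / 5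
  · rw [psi_far _ hb]
    have : 2 / 3 * (1 - w) - 1 / 2 * 0 - (2 / 3 * (1 - b) - 1 / 2 * 0) = -(2 / 3) * (w - b) := by ring
    rw [this, abs_mul, abs_neg, abs_of_pos (by norm_num : (0:ℝ) < 2 / 3)]
    have := abs_nonneg (w - b)
    linarith
  · push Not at hb
    have e1 := psi_le (b - 2 / 5)
    have e2 := le_psi (b - 2 / 5)
    have e3 : 2 / 25 ≤ |w - b| := by
      rcases hw with hw | hw
      · rw [abs_sub_comm]
        refine le_trans ?_ (le_abs_self _)
        linarith [hb.1]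
      · refine le_trans ?_ (le_abs_self _)
        linarith [hb.2]
    have e4 : |w - b| = w - b ∨ |w - b| = -(w - b) := abs_choice _
    rw [abs_le]
    rcases e4 with e4 | e4 <;> rw [e4] at e3 ⊢ <;> constructor <;> linarith

theorem f1_contr (w b : ℝ) (hw0 : 0 ≤ w) (hw1 : w ≤ 1) (hb0 : 0 ≤ b) (hb1 : b ≤ 1)
    (hw : w - 2 / 5 ≤ -(1 / 10) ∨ 1 / 10 ≤ w - 2 / 5) : |f1 w - f1 b| ≤ 4 / 5 * |w - b| := by
  unfold f1
  rw [p_eq w hw0 hw1, p_eq b hb0 hb1]
  exact h_contr w b hw

theorem f2_contr (w b : ℝ) (hw0 : 0 ≤ w) (hw1 : w ≤ 1) (hb0 : 0 ≤ b) (hb1 : b ≤ 1)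
    (hw : w - 3 / 5 ≤ -(1 / 10) ∨ 1 / 10 ≤ w - 3 / 5) : |f2 w - f2 b| ≤ 4 / 5 * |w - b| := by
  unfold f2
  rw [p_eq w hw0 hw1, p_eq b hb0 hb1]
  have := h_contr (1 - w) (1 - b) (by rcases hw with h | h; right; linarith; left; linarith)
  have e1 : 1 - h (1 - w) - (1 - h (1 - b)) = -(h (1 - w) - h (1 - b)) := by ring
  have e2 : 1 - w - (1 - b) = -(w - b) := by ring
  rw [e2, abs_neg] at this
  rw [e1, abs_neg]
  exact this

theorem f1_far (w : ℝ) (hw0 : 0 ≤ w) (hw1 : w ≤ 1)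
    (hw : w - 2 / 5 ≤ -(1 / 10) ∨ 1 / 10 ≤ w - 2 / 5) : f1 w = 2 / 3 * (1 - w) := by
  unfold f1 h
  rw [p_eq w hw0 hw1, psi_far _ (by rcases hw with h | h; left; linarith; right; linarith)]
  ring

theorem f2_far (w : ℝ) (hw0 : 0 ≤ w) (hw1 : w ≤ 1)
    (hw : w - 3 / 5 ≤ -(1 / 10) ∨ 1 / 10 ≤ w - 3 / 5) : f2 w = 1 - 2 / 3 * w := by
  unfold f2 h
  rw [p_eq w hw0 hw1, psi_far _ (by rcases hw with h | h; right; linarith; left; linarith)]
  ring

/-- every point of the unit interval has a good preimage -/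
theorem good_preimage (z : ℝ) (h0 : 0 ≤ z) (h1 : z ≤ 1) :
    (∃ w : ℝ, 0 ≤ w ∧ w ≤ 1 ∧ (w - 2 / 5 ≤ -(1 / 10) ∨ 1 / 10 ≤ w - 2 / 5) ∧ f1 w = z) ∨
    (∃ w : ℝ, 0 ≤ w ∧ w ≤ 1 ∧ (w - 3 / 5 ≤ -(1 / 10) ∨ 1 / 10 ≤ w - 3 / 5) ∧ f2 w = z) := by
  rcases le_total z (1 / 3) with hz | hz
  · left
    refine ⟨1 - 3 / 2 * z, by linarith, by linarith, Or.inr (by linarith), ?_⟩
    rw [f1_far _ (by linarith) (by linarith) (Or.inr (by linarith))]
    ring
  · rcases le_total z (1 / 2) with hz2 | hz2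
    · right
      refine ⟨3 / 2 * (1 - z), by linarith, by linarith, Or.inr (by linarith), ?_⟩
      rw [f2_far _ (by linarith) (by linarith) (Or.inr (by linarith))]
      ring
    · rcases le_total z (2 / 3) with hz3 | hz3
      · left
        refine ⟨1 - 3 / 2 * z, by linarith, by linarith, Or.inl (by linarith), ?_⟩
        rw [f1_far _ (by linarith) (by linarith) (Or.inl (by linarith))]
        ring
      · right
        refine ⟨3 / 2 * (1 - z), by linarith, by linarith, Or.inl (by linarith), ?_⟩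
        rw [f2_far _ (by linarith) (by linarith) (Or.inl (by linarith))]
        ring

/-- the system -/
def FF : Set (ℝ → ℝ) := {f1, f2}

theorem mem_hut (B : Set ℝ) (z : ℝ) : z ∈ hut FF B ↔ (∃ b ∈ B, f1 b = z) ∨ (∃ b ∈ B, f2 b = z) := by
  unfold hut FF
  simp

theorem hut_sub (B : Set ℝ) : hut FF B ⊆ Icc 0 1 := by
  intro z hz
  rw [mem_hut] at hz
  rcases hz with ⟨b, _, rfl⟩ | ⟨b, _, rfl⟩
  · exact ⟨(f1_mem b).1, by linarith [(f1_mem b).2]⟩
  · exact ⟨by linarith [(f2_mem b).1], (f2_mem b).2⟩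

theorem hut_Icc : hut FF (Icc 0 1) = Icc 0 1 := by
  apply Subset.antisymm (hut_sub _)
  intro z hz
  rw [mem_hut]
  rcases good_preimage z hz.1 hz.2 with ⟨w, h0, h1, _, hw⟩ | ⟨w, h0, h1, _, hw⟩
  · exact Or.inl ⟨w, ⟨h0, h1⟩, hw⟩
  · exact Or.inr ⟨w, ⟨h0, h1⟩, hw⟩

theorem hut_nonempty (B : Set ℝ) (hB : B.Nonempty) : (hut FF B).Nonempty := by
  obtain ⟨b, hb⟩ := hB
  exact ⟨f1 b, (mem_hut _ _).mpr (Or.inl ⟨b, hb, rfl⟩)⟩

theorem approx (B : Set ℝ) (hB : B.Nonempty) (j : ℕ) : ∀ z ∈ Icc (0:ℝ) 1,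
    ∃ b ∈ (hut FF)^[j + 1] B, |z - b| ≤ (4 / 5) ^ j := by
  induction j with
  | zero =>
    intro z hz
    obtain ⟨b, hb⟩ := hut_nonempty B hB
    refine ⟨b, hb, ?_⟩
    have := hut_sub B hb
    rw [pow_zero, abs_le]
    constructor <;> linarith [hz.1, hz.2, this.1, this.2]
  | succ j ih =>
    intro z hz
    have hsub : (hut FF)^[j + 1] B ⊆ Icc 0 1 := by
      rw [Function.iterate_succ_apply']
      exact hut_sub _
    rcases good_preimage z hz.1 hz.2 with ⟨w, h0, h1, hw, rfl⟩ | ⟨w, h0, h1, hw, rfl⟩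
    · obtain ⟨b, hb, hwb⟩ := ih w ⟨h0, h1⟩
      refine ⟨f1 b, ?_, ?_⟩
      · rw [Function.iterate_succ_apply', mem_hut]
        exact Or.inl ⟨b, hb, rfl⟩
      · refine (f1_contr w b h0 h1 (hsub hb).1 (hsub hb).2 hw).trans ?_
        rw [pow_succ]
        linarith
    · obtain ⟨b, hb, hwb⟩ := ih w ⟨h0, h1⟩
      refine ⟨f2 b, ?_, ?_⟩
      · rw [Function.iterate_succ_apply', mem_hut]
        exact Or.inr ⟨b, hb, rfl⟩
      · refine (f2_contr w b h0 h1 (hsub hb).1 (hsub hb).2 hw).trans ?_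
        rw [pow_succ]
        linarith

theorem attracts : Attracts FF (Icc 0 1) univ := by
  intro B _ hB _
  have hb : ∀ j : ℕ, Metric.hausdorffEDist ((hut FF)^[j + 1] B) (Icc (0:ℝ) 1) ≤
      ENNReal.ofReal ((4 / 5) ^ j) := by
    intro j
    apply Metric.hausdorffEDist_le_of_mem_edist
    · intro x hx
      refine ⟨x, ?_, by simp⟩
      rw [Function.iterate_succ_apply'] at hx
      exact hut_sub _ hx
    · intro z hz
      obtain ⟨b, hb, hzb⟩ := approx B hB j z hz
      refine ⟨b, hb, ?_⟩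
      rw [edist_dist]
      exact ENNReal.ofReal_le_ofReal (by rw [Real.dist_eq]; exact hzb)
  have hlim : Tendsto (fun j : ℕ => ENNReal.ofReal ((4 / 5 : ℝ) ^ j)) atTop (𝓝 0) := by
    have := tendsto_pow_atTop_nhds_zero_of_lt_one (by norm_num : (0:ℝ) ≤ 4 / 5) (by norm_num)
    have := ENNReal.tendsto_ofReal this
    simpa using this
  rw [← tendsto_add_atTop_iff_nat 1]
  exact tendsto_of_tendsto_of_tendsto_of_le_of_le tendsto_const_nhds hlim
    (fun _ => bot_le) hb

/-- A map with a backward orbit tending to a fixed point is expanding somewhere for every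
equivalent metric. -/
theorem lip_gt {X : Type} [t : TopologicalSpace X] (f : X → X) (c : X) (x : ℕ → X) (hc : f c = c)
    (hx : ∀ n, f (x (n + 1)) = x n) (hx0 : x 0 ≠ c) (hlim : Tendsto x atTop (𝓝 c))
    (d : MetricSpace X) (hd : d.toUniformSpace.toTopologicalSpace = t) :
    1 < Lip f d := by
  subst hd
  have hex : ∃ n, dist (x (n + 1)) c < dist (x n) c := by
    by_contra hcon
    push Not at hcon
    have hmono : ∀ n, dist (x 0) c ≤ dist (x n) c := by
      intro n
      induction n with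
      | zero => exact le_rfl
      | succ n ih => exact ih.trans (hcon n)
    have h1 : Tendsto (fun n => dist (x n) c) atTop (𝓝 0) :=
      (tendsto_iff_dist_tendsto_zero).mp hlim
    have h2 : dist (x 0) c ≤ 0 := ge_of_tendsto' h1 hmono
    exact hx0 (dist_le_zero.mp h2)
  obtain ⟨n, hn⟩ := hex
  have hne : x (n + 1) ≠ c := by
    intro h
    have h2 : x n = c := by rw [← hx n, h, hc]
    rw [h, h2] at hn
    exact lt_irrefl _ hn
  have hpos : 0 < dist (x (n + 1)) c := dist_pos.mpr hne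
  unfold Lip
  rw [lt_iSup_iff]
  refine ⟨x (n + 1), ?_⟩
  rw [lt_iSup_iff]
  refine ⟨c, ?_⟩
  rw [lt_iSup_iff]
  refine ⟨hne, ?_⟩
  rw [hx n, hc, ← ENNReal.ofReal_one]
  have h1 : 1 < dist (x n) c / dist (x (n + 1)) c := by rwa [lt_div_iff₀ hpos, one_mul]
  exact (ENNReal.ofReal_lt_ofReal_iff (by linarith)).mpr h1

/-- the backward orbit -/
noncomputable def bo (c : ℝ) (n : ℕ) : ℝ := c + (-(6 / 7)) ^ n * (1 / 100)

theorem bo_abs (n : ℕ) : |(-(6 / 7 : ℝ)) ^ n * (1 / 100)| ≤ 1 / 100 := by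
  rw [abs_mul, abs_pow, abs_neg, abs_of_pos (by norm_num : (0:ℝ) < 6 / 7),
    abs_of_pos (by norm_num : (0:ℝ) < 1 / 100)]
  have : (6 / 7 : ℝ) ^ n ≤ 1 := pow_le_one₀ (by norm_num) (by norm_num)
  nlinarith

theorem bo_lim (c : ℝ) : Tendsto (bo c) atTop (𝓝 c) := by
  have h1 : Tendsto (fun n : ℕ => (-(6 / 7 : ℝ)) ^ n) atTop (𝓝 0) :=
    tendsto_pow_atTop_nhds_zero_of_abs_lt_one (by rw [abs_neg, abs_of_pos] <;> norm_num)
  have := (h1.mul_const (1 / 100)).const_add c
  rw [zero_mul, add_zero] at this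
  exact this

theorem f1_bo (n : ℕ) : f1 (bo (2 / 5) (n + 1)) = bo (2 / 5) n := by
  have ha := abs_le.mp (bo_abs (n + 1))
  unfold f1 h
  have e : bo (2 / 5) (n + 1) - 2 / 5 = (-(6 / 7)) ^ (n + 1) * (1 / 100) := by unfold bo; ring
  rw [p_eq _ (by unfold bo; linarith [ha.1]) (by unfold bo; linarith [ha.2]), e,
    psi_near _ ha.1 ha.2]
  unfold bo
  rw [pow_succ]
  ring

theorem f2_bo (n : ℕ) : f2 (bo (3 / 5) (n + 1)) = bo (3 / 5) n := by
  have ha := abs_le.mp (bo_abs (n + 1))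
  unfold f2 h
  have e : 1 - bo (3 / 5) (n + 1) - 2 / 5 = -((-(6 / 7)) ^ (n + 1) * (1 / 100)) := by unfold bo; ring
  rw [p_eq _ (by unfold bo; linarith [ha.1]) (by unfold bo; linarith [ha.2]), e,
    psi_near _ (by linarith [ha.2]) (by linarith [ha.1])]
  unfold bo
  rw [pow_succ]
  ring

theorem f1_fix : f1 (2 / 5) = 2 / 5 := by
  unfold f1 h
  rw [p_eq _ (by norm_num) (by norm_num), sub_self, psi_near 0 (by norm_num) (by norm_num)]
  norm_num

theorem f2_fix : f2 (3 / 5) = 3 / 5 := by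
  unfold f2 h
  rw [p_eq _ (by norm_num) (by norm_num), show (1:ℝ) - 3 / 5 - 2 / 5 = 0 by norm_num,
    psi_near 0 (by norm_num) (by norm_num)]
  norm_num

/-- **Theorem.** There is an IFS `F` on the line `ℝ` (so `n = 1`) with an attractor `A` whose basin
is all of `ℝ`, such that no proper subset of `F` has `A` as an attractor and such that
`Lip(f, d) > 1` for all `f ∈ F` and all metrics `d` on `ℝ` which induce the usual topology. -/
theorem result : ∃ (F : Set (ℝ → ℝ)) (A : Set ℝ), IsIFS F ∧ IsAttractor F A ∧ basin F A = univ ∧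
    (∀ G : Set (ℝ → ℝ), G ⊂ F → ¬ IsAttractor G A) ∧
    ∀ d : MetricSpace ℝ, d.toUniformSpace.toTopologicalSpace = (inferInstance : TopologicalSpace ℝ) →
      ∀ f ∈ F, 1 < Lip f d := by
  refine ⟨FF, Icc 0 1, ⟨?_, ⟨f1, Or.inl rfl⟩, ?_⟩, ⟨isCompact_Icc, ⟨0, by norm_num⟩, hut_Icc, univ,
    isOpen_univ, subset_univ _, attracts⟩, ?_, ?_, ?_⟩
  · exact (finite_singleton _).insert _
  · intro f hf
    rcases hf with rfl | hf
    · exact continuous_f1
    · rw [mem_singleton_iff.mp hf]; exact continuous_f2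
  · exact eq_univ_of_univ_subset (subset_sUnion_of_mem ⟨isOpen_univ, subset_univ _, attracts⟩)
  · intro G hG hA
    have hcase : f1 ∉ G ∨ f2 ∉ G := by
      by_contra hcon
      push Not at hcon
      apply hG.2
      intro f hf
      rcases hf with rfl | hf
      · exact hcon.1
      · rw [mem_singleton_iff.mp hf]; exact hcon.2
    rcases hcase with h | h
    · have h0 : (0:ℝ) ∈ hut G (Icc 0 1) := by rw [hA.2.2.1]; norm_num
      obtain ⟨f, hf, b, _, hb⟩ := mem_iUnion₂.mp h0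
      have hfF := hG.1 hf
      rcases hfF with rfl | hfF
      · exact h hf
      · rw [mem_singleton_iff.mp hfF] at hb
        have := (f2_mem b).1
        linarith
    · have h0 : (1:ℝ) ∈ hut G (Icc 0 1) := by rw [hA.2.2.1]; norm_num
      obtain ⟨f, hf, b, _, hb⟩ := mem_iUnion₂.mp h0
      have hfF := hG.1 hf
      rcases hfF with rfl | hfF
      · have := (f1_mem b).2
        linarith
      · rw [mem_singleton_iff.mp hfF] at hf
        exact h hf
  · intro d hd f hf
    rcases hf with rfl | hf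
    · exact lip_gt f1 (2 / 5) (bo (2 / 5)) f1_fix f1_bo (by unfold bo; norm_num) (bo_lim _) d hd
    · rw [mem_singleton_iff.mp hf]
      exact lip_gt f2 (3 / 5) (bo (3 / 5)) f2_fix f2_bo (by unfold bo; norm_num) (bo_lim _) d hd

end Pool.Agent.Results.MP_b8546e_an.NonContractiveLine
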